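import Pool.Agent.Q294.Sq6

/-!
Self-avoiding polygons on the square lattice: the sum over blocks of `√n` lengths of the maxima of
`p_{2j} μ^(-2j)` over the blocks is at most `K / n`; the asymptotic form of `p_{2n}` passes from
sparse lengths, or from the partial sums of `p_{2j} μ^(-2j)`, to all lengths.
-/

namespace Pool.Agent.Results.MP_376faf_co.BlockMaxima

open Filter Topology

/-- the number of `n`-step self-avoiding walks on `ℤ²` started at the origin -/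
noncomputable def c (n : ℕ) : ℕ :=
  Nat.card {f : Fin (n + 1) → ℤ × ℤ // f 0 = 0 ∧ Function.Injective f ∧
    ∀ i : Fin n, |(f i.succ).1 - (f i.castSucc).1| + |(f i.succ).2 - (f i.castSucc).2| = 1}

/-- a closed nearest-neighbour loop on `ℤ²` with `m` steps, rooted at the origin and oriented,
that visits no vertex twice -/
def IsLoop (m : ℕ) (f : ZMod m → ℤ × ℤ) : Prop :=
  f 0 = 0 ∧ Function.Injective f ∧
    ∀ i : ZMod m, |(f (i + 1)).1 - (f i).1| + |(f (i + 1)).2 - (f i).2| = 1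

/-- the number of self-avoiding polygons of perimeter `2n` on `ℤ²` up to translation: the number
of rooted oriented loops with `2n` steps, divided by `4n` (the choices of the starting point and
of the orientation) -/
noncomputable def p (n : ℕ) : ℝ :=
  (Nat.card {f : ZMod (2 * n) → ℤ × ℤ // IsLoop (2 * n) f} : ℝ) / (4 * (n : ℝ))

lemma c_eq (n : ℕ) : (c n : ℝ) = H981.cr' n := by
  rw [H981.cr'_eq]
  unfold c H981.C H981.IsSAW
  congr 1
  apply Nat.card_congr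
  apply Equiv.subtypeEquivRight
  intro f
  constructor
  · rintro ⟨h0, h1, h2⟩
    exact ⟨h0, h2, h1⟩
  · rintro ⟨h0, h2, h1⟩
    exact ⟨h0, h1, h2⟩

/-- **Theorem.** Let `μ` be the connective constant of `ℤ²` and `p_{2n}` the number of self-avoiding
polygons of perimeter `2n` up to translation.
(1) There is `K` such that, for all `n ≥ 2` and `s = ⌊√n⌋`, for any choice of `j_i` in the block
`[n + i s, n + (i + 1) s]`, `0 ≤ i < s`, the sum of `p_{2 j_i} μ^(-2 j_i)` is at most `K / n`.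
(2) If `p_{2n} ~ C n^β μ^(2n)`, with `C > 0` and `β` real, holds along a set of integers that meets
`[n, n + δ √n]` for every `δ > 0` and all large `n`, then it holds along all `n`.
(3) If `∑_{2≤j≤n} p_{2j} μ^(-2j) = s - a n^(-γ) + o(n^(-γ-1/2))` with `a, γ > 0` and `s` real, then
`p_{2n} ~ γ a n^(-γ-1) μ^(2n)`; with an error `O(n^(-γ-1/2))`, `p_{2n} μ^(-2n) n^(γ+1)` is between
two positive constants for all large `n`. -/
theorem result : ∃ μ : ℝ, 0 < μ ∧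
    Tendsto (fun n : ℕ => (c n : ℝ) ^ ((1:ℝ) / (n : ℝ))) atTop (𝓝 μ) ∧
    (∃ K : ℝ, ∀ n : ℕ, 2 ≤ n → ∀ J : ℕ → ℕ,
      (∀ i < Nat.sqrt n, n + i * Nat.sqrt n ≤ J i ∧ J i ≤ n + (i + 1) * Nat.sqrt n) →
      ∑ i ∈ Finset.range (Nat.sqrt n), p (J i) / μ ^ (2 * J i) ≤ K / n) ∧
    (∀ S : Set ℕ,
      (∀ δ : ℝ, 0 < δ → ∀ᶠ n : ℕ in atTop, ∃ k ∈ S, n ≤ k ∧ (k : ℝ) ≤ n + δ * √n) →
      ∀ C β : ℝ, 0 < C →
      Tendsto (fun n : ℕ => p n / ((n : ℝ) ^ β * μ ^ (2 * n))) (atTop ⊓ 𝓟 S) (𝓝 C) →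
      Tendsto (fun n : ℕ => p n / ((n : ℝ) ^ β * μ ^ (2 * n))) atTop (𝓝 C)) ∧
    (∀ a γ s : ℝ, 0 < a → 0 < γ →
      (Tendsto (fun n : ℕ => (∑ j ∈ Finset.Icc 2 n, p j / μ ^ (2 * j) -
          (s - a * (n : ℝ) ^ (-γ))) / (n : ℝ) ^ (-γ - 1 / 2)) atTop (𝓝 0) →
        Tendsto (fun n : ℕ => p n / ((n : ℝ) ^ (-γ - 1) * μ ^ (2 * n))) atTop (𝓝 (γ * a))) ∧
      ∀ C : ℝ, (∀ᶠ n : ℕ in atTop, |∑ j ∈ Finset.Icc 2 n, p j / μ ^ (2 * j) -
          (s - a * (n : ℝ) ^ (-γ))| ≤ C * (n : ℝ) ^ (-γ - 1 / 2)) →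
        ∃ c₁ c₂ : ℝ, 0 < c₁ ∧ ∀ᶠ n : ℕ in atTop, c₁ ≤ p n / ((n : ℝ) ^ (-γ - 1) * μ ^ (2 * n)) ∧
          p n / ((n : ℝ) ^ (-γ - 1) * μ ^ (2 * n)) ≤ c₂) := by
  refine ⟨H981.mu, H981.mu_pos, ?_, Q294.Sq6.blocks, ?_, ?_⟩
  · simp only [c_eq]
    exact H981.tendsto_root
  · intro S hS C β hC h
    exact Q294.Sq6.sparse_count S hS C β hC h
  · intro a γ s ha hγ
    exact ⟨fun h => Q294.Sq6.tauber_tail a γ s ha hγ h,
      fun C h => Q294.Sq6.tauber_tail_O a γ s C ha hγ h⟩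

end Pool.Agent.Results.MP_376faf_co.BlockMaxima
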