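import Pool.Agent.Q218.PJ.Dbl
import Pool.Agent.W870.Pg.Fin

/-!
Self-avoiding polygons on the square lattice. The join inequality at every length: the sum of
`min(width A, width B)` over all pairs `(A, B)` of polygons with total perimeter `2n` is at most
`K (log n)^2 p_{2n}`; consequently `n p_{2n}^2 ≤ K (log n)^3 p_{4n}`.
-/

namespace Pool.Agent.Results.MP_376faf_co.JoinInequality

/-- a closed nearest-neighbour loop on `ℤ²` with `m` steps, rooted at the origin and oriented,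
that visits no vertex twice -/
def IsLoop (m : ℕ) (f : ZMod m → ℤ × ℤ) : Prop :=
  f 0 = 0 ∧ Function.Injective f ∧
    ∀ i : ZMod m, |(f (i + 1)).1 - (f i).1| + |(f (i + 1)).2 - (f i).2| = 1

/-- the number of self-avoiding polygons of perimeter `2n` on `ℤ²` up to translation: the number
of rooted oriented loops with `2n` steps, divided by `4n` (the choices of the starting point and
of the orientation) -/
noncomputable def p (n : ℕ) : ℝ :=
  (Nat.card {f : ZMod (2 * n) → ℤ × ℤ // IsLoop (2 * n) f} : ℝ) / (4 * (n : ℝ))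

/-- the width (horizontal extent) of a loop -/
noncomputable def width (m : ℕ) (f : ZMod m → ℤ × ℤ) : ℕ :=
  sSup {w : ℕ | ∃ i j, w = ((f i).1 - (f j).1).natAbs}

/-- the mean width `W_n` of the self-avoiding polygons of perimeter `2 n`: the average of the
width over the rooted oriented polygons. -/
noncomputable def W (n : ℕ) : ℝ :=
  (∑ᶠ f ∈ {f : ZMod (2 * n) → ℤ × ℤ | IsLoop (2 * n) f}, (width (2 * n) f : ℝ)) /
    ({f : ZMod (2 * n) → ℤ × ℤ | IsLoop (2 * n) f}.ncard : ℝ)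

/-- the sum of `min(width A, width B)` over the pairs `(A, B)` of polygons of perimeters `2j` and
`2k`, each up to translation (a polygon of perimeter `2j` gives `4j` rooted oriented loops) -/
noncomputable def S (j k : ℕ) : ℝ :=
  (∑ᶠ f ∈ {f : ZMod (2 * j) → ℤ × ℤ | IsLoop (2 * j) f},
    ∑ᶠ g ∈ {g : ZMod (2 * k) → ℤ × ℤ | IsLoop (2 * k) g},
      ((min (width (2 * j) f) (width (2 * k) g) : ℕ) : ℝ)) / ((4 * j) * (4 * k))

lemma p_eq (n : ℕ) : p n = H981.PP n := rfl

lemma W_eq {n : ℕ} (hn : 2 ≤ n) : W n = Pool.Agent.W870.Pg.MW n := Pool.Agent.W870.Pg.MW_eq hn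

lemma S_eq {j k : ℕ} (hj : 2 ≤ j) (hk : 2 ≤ k) : S j k = Pool.Agent.Q218.PJ.MM j k := by
  have : NeZero (2 * j) := ⟨by omega⟩
  have : NeZero (2 * k) := ⟨by omega⟩
  have e : ∀ m : ℕ, NeZero m → {f : ZMod m → ℤ × ℤ | IsLoop m f} =
      ((Pool.Agent.W870.Pg.LF m : Finset (ZMod m → ℤ × ℤ)) : Set (ZMod m → ℤ × ℤ)) := by
    intro m _
    ext f
    rw [Finset.mem_coe, Pool.Agent.W870.Pg.mem_LF]
    exact Iff.rfl
  unfold S Pool.Agent.Q218.PJ.MM
  rw [e (2 * j) inferInstance, e (2 * k) inferInstance]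
  simp_rw [finsum_mem_coe_finset]
  have e2 : (4 * (j : ℝ)) * (4 * k) = 16 * j * k := by ring
  rw [e2]
  push_cast
  rfl

/-- **Theorem.** Let `p_{2j}` be the number of self-avoiding polygons of perimeter `2j` on `ℤ²` up
to translation and `W_j` their mean width. There is a constant `K` such that for every `n ≥ 4`:
(1) the sum of `min(width A, width B)` over all ordered pairs `(A, B)` of polygons (up to
translation) of total perimeter `2n` is at most `K (log n)² p_{2n}`; (2) the sum of `√(min(j, n-j)) p_{2j} p_{2(n-j)}` over `2 ≤ j ≤ n-2` is at most `K (log n)² p_{2n}`; (3) the sum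
of `W_j p_{2j} p_{2(n-j)}` over `2 ≤ j ≤ √n/4` is at most `K (log n)² p_{2n}`; and
(4) `n p_{2n}² ≤ K (log n)³ p_{4n}` for every `n ≥ 2`. -/
theorem result : ∃ K : ℝ,
    (∀ n : ℕ, 4 ≤ n →
      ∑ j ∈ Finset.Icc 2 (n - 2), S j (n - j) ≤ K * Real.log n ^ 2 * p n) ∧
    (∀ n : ℕ, 4 ≤ n →
      ∑ j ∈ Finset.Icc 2 (n - 2), Real.sqrt (min j (n - j) : ℕ) * p j * p (n - j) ≤
        K * Real.log n ^ 2 * p n) ∧
    (∀ n : ℕ, 4 ≤ n →
      ∑ j ∈ (Finset.Icc 2 n).filter (fun j => 16 * j ^ 2 ≤ n), W j * p j * p (n - j) ≤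
        K * Real.log n ^ 2 * p n) ∧
    ∀ n : ℕ, 2 ≤ n → n * p n ^ 2 ≤ K * Real.log n ^ 3 * p (2 * n) := by
  obtain ⟨K1, hK1, h1⟩ := Pool.Agent.Q218.PJ.join_all
  obtain ⟨K2, hK2, h2⟩ := Pool.Agent.Q218.PJ.join_sqrt
  obtain ⟨K3, hK3, h3⟩ := Pool.Agent.Q218.PJ.join_width
  obtain ⟨K4, hK4, h4⟩ := Pool.Agent.Q218.PJ.double
  have hp : ∀ n : ℕ, 2 ≤ n → 0 ≤ H981.PP n := fun n hn => (Pool.Agent.W870.Pg.PP_pos hn).le
  refine ⟨K1 + K2 + K3 + K4, fun n hn => ?_, fun n hn => ?_, fun n hn => ?_, fun n hn => ?_⟩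
  · have hl : 0 ≤ Real.log n := Real.log_natCast_nonneg _
    have hpn := hp n (by omega)
    have e : ∑ j ∈ Finset.Icc 2 (n - 2), S j (n - j) =
        ∑ j ∈ Finset.Icc 2 (n - 2), Pool.Agent.Q218.PJ.MM j (n - j) := by
      apply Finset.sum_congr rfl
      intro j hj
      rw [Finset.mem_Icc] at hj
      exact S_eq hj.1 (by omega)
    rw [e, p_eq]
    refine (h1 n hn).trans ?_
    have : K1 ≤ K1 + K2 + K3 + K4 := by linarith
    gcongr
  · have hl : 0 ≤ Real.log n := Real.log_natCast_nonneg _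
    have hpn := hp n (by omega)
    simp only [p_eq]
    refine (h2 n hn).trans ?_
    have : K2 ≤ K1 + K2 + K3 + K4 := by linarith
    gcongr
  · have hl : 0 ≤ Real.log n := Real.log_natCast_nonneg _
    have hpn := hp n (by omega)
    have e : ∑ j ∈ (Finset.Icc 2 n).filter (fun j => 16 * j ^ 2 ≤ n), W j * p j * p (n - j) =
        ∑ j ∈ (Finset.Icc 2 n).filter (fun j => 16 * j ^ 2 ≤ n),
          Pool.Agent.W870.Pg.MW j * H981.PP j * H981.PP (n - j) := by
      apply Finset.sum_congr rfl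
      intro j hj
      rw [Finset.mem_filter, Finset.mem_Icc] at hj
      rw [W_eq hj.1.1, p_eq, p_eq]
    rw [e, p_eq]
    refine (h3 n hn).trans ?_
    have : K3 ≤ K1 + K2 + K3 + K4 := by linarith
    gcongr
  · have hl : 0 ≤ Real.log n := Real.log_natCast_nonneg _
    have hpn := hp (2 * n) (by omega)
    simp only [p_eq]
    refine (h4 n hn).trans ?_
    have : K4 ≤ K1 + K2 + K3 + K4 := by linarith
    gcongr

end Pool.Agent.Results.MP_376faf_co.JoinInequality
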