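import Pool.Agent.Q78.UW.Reg

set_option autoImplicit false

/-!
# Self-avoiding polygons on the square lattice in a finite region or in a random domain
-/

namespace Pool.Agent.Results.MP_376faf_co.PolygonsInRegions

open MeasureTheory Filter Topology

/-- the number of `n`-step self-avoiding walks on `ℤ²` started at the origin -/
noncomputable def c (n : ℕ) : ℕ :=
  Nat.card {f : Fin (n + 1) → ℤ × ℤ // f 0 = 0 ∧ Function.Injective f ∧
    ∀ i : Fin n, |(f i.succ).1 - (f i.castSucc).1| + |(f i.succ).2 - (f i.castSucc).2| = 1}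

/-- a closed nearest-neighbour loop on `ℤ²` with `m` steps that visits no vertex twice (rooted and
oriented, anywhere in the plane) -/
def IsPoly (m : ℕ) (f : ZMod m → ℤ × ℤ) : Prop :=
  Function.Injective f ∧ ∀ i : ZMod m, |(f (i + 1)).1 - (f i).1| + |(f (i + 1)).2 - (f i).2| = 1

/-- the number of self-avoiding polygons of perimeter `2n` on `ℤ²` up to translation: the number
of loops with `2n` steps rooted at the origin, divided by `4n` (the choices of the starting point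
and of the orientation) -/
noncomputable def p (n : ℕ) : ℝ :=
  (Nat.card {f : ZMod (2 * n) → ℤ × ℤ // f 0 = 0 ∧ IsPoly (2 * n) f} : ℝ) / (4 * (n : ℝ))

/-- the number of self-avoiding polygons of perimeter `2n` with all their vertices in `Λ` -/
noncomputable def N (Λ : Finset (ℤ × ℤ)) (n : ℕ) : ℝ :=
  (Nat.card {f : ZMod (2 * n) → ℤ × ℤ // IsPoly (2 * n) f ∧ ∀ i, f i ∈ Λ} : ℝ) / (4 * (n : ℝ))

/-- the size of the error for the region `Λ`; `|Λ| p_{2n}` is the number of pairs of a polygon up to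
translation and a point of `Λ` -/
noncomputable def err (Λ : Finset (ℤ × ℤ)) (n : ℕ) : ℝ :=
  √((Real.log (Λ.card * p n / N Λ n) + Real.log n ^ 2) / n)

variable {Ω : Type} [MeasurableSpace Ω]

/-- the probability that the uniform polygon of perimeter `2n` through the origin lies in an
independent random domain with law `ν` -/
noncomputable def Q (ν : Measure Ω) (D : Ω → ℤ × ℤ → Prop) (n : ℕ) : ℝ :=
  (∫ ω, (Nat.card {f : ZMod (2 * n) → ℤ × ℤ //
    (f 0 = 0 ∧ IsPoly (2 * n) f) ∧ ∀ i, D ω (f i)} : ℝ) ∂ν) / (4 * n * p n)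

/-- random domains -/
def IsDomain (D : Ω → ℤ × ℤ → Prop) : Prop := ∀ x, MeasurableSet {ω | D ω x}

/-- the size of the error for a random domain -/
noncomputable def errD (ν : Measure Ω) (D : Ω → ℤ × ℤ → Prop) (n : ℕ) : ℝ :=
  √((Real.log (1 / Q ν D n) + Real.log n ^ 2) / n)

open TH966.AK Q78.UW Q78.UW.Po Pool.Agent.H924P

lemma c_eq (n : ℕ) : (c n : ℝ) = H981.cr' n := by
  rw [H981.cr'_eq]
  unfold c H981.C H981.IsSAW
  congr 1
  apply Nat.card_congr
  apply Equiv.subtypeEquivRight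
  intro f
  constructor
  · rintro ⟨h0, h1, h2⟩
    exact ⟨h0, h2, h1⟩
  · rintro ⟨h0, h2, h1⟩
    exact ⟨h0, h1, h2⟩

lemma p_eq (n : ℕ) : p n = H981.PP n := rfl

lemma Q_eq (ν : Measure Ω) (D : Ω → ℤ × ℤ → Prop) {n : ℕ} (hn : 1 ≤ n) : Q ν D n = Pl ν D n := by
  unfold Q Pl Fp Q78.UR.FF
  rw [p_eq]
  congr 1
  congr 1
  funext ω
  rw [← root_card' (2 * n) (2 * n - 1) (by omega) (D ω)]
  rfl

lemma Fp_eq (ν : Measure Ω) (D : Ω → ℤ × ℤ → Prop) {n : ℕ} (hn : 2 ≤ n) :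
    Fp ν D n = Q ν D n * (4 * n * p n) := by
  rw [Q_eq ν D (by omega), p_eq]
  unfold Pl
  have h1 := PP_pos hn
  have h2 : (0 : ℝ) < n := by exact_mod_cast (show 0 < n by omega)
  rw [div_mul_cancel₀]
  positivity

/-- a region as a random domain -/
lemma N_eq {Λ Λ' : Finset (ℤ × ℤ)} (h : Λ.Nonempty) (hsub : Λ' ⊆ Λ) {n : ℕ} (hn : 1 ≤ n) :
    N Λ' n = Λ.card * @Fp (ℤ × ℤ) ⊤ (uni Λ) (Dr Λ') n / (4 * n) := by
  unfold N Fp
  rw [← reg_card' (2 * n) (2 * n - 1) (by omega) h hsub]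
  rfl

lemma Pl_eq {Λ : Finset (ℤ × ℤ)} (h : Λ.Nonempty) {n : ℕ} (hn : 1 ≤ n) :
    @Pl (ℤ × ℤ) ⊤ (uni Λ) (Dr Λ) n = N Λ n / (Λ.card * p n) := by
  rw [N_eq h (Finset.Subset.refl _) hn, p_eq]
  unfold Pl
  have h0 : (0 : ℝ) < Λ.card := by exact_mod_cast h.card_pos
  have h1 : (0 : ℝ) < n := by exact_mod_cast hn
  rcases eq_or_ne (H981.PP n) 0 with h2 | h2
  · rw [h2]; simp
  · field_simp

/-- ratios with a factor `n / (n + 1)` -/
lemma ratio_fix {r e C : ℝ} {n : ℕ} (hn : 1 ≤ n) (he : 1 / n ≤ e) (h : |r - 1| ≤ C * e)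
    (he1 : C * e ≤ 1) : |r * (n / (n + 1)) - 1| ≤ (C + 2) * e := by
  have hn0 : (0 : ℝ) < n := by exact_mod_cast hn
  have h1 : r * (n / (n + 1)) - 1 = (r - 1) - r / (n + 1) := by
    field_simp
    ring
  have h2 : |r| ≤ 2 := by
    have h3 := abs_le.1 (h.trans he1)
    rw [abs_le]
    constructor <;> linarith [h3.1, h3.2]
  have h3 : |r / (n + 1)| ≤ 2 * e := by
    rw [abs_div, abs_of_pos (show (0 : ℝ) < n + 1 by linarith), div_le_iff₀ (by linarith)]
    have h4 : 1 ≤ e * n := by rwa [div_le_iff₀ hn0] at he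
    nlinarith
  rw [h1]
  refine (abs_sub _ _).trans ?_
  linarith

theorem main : ∃ (C δ : ℝ) (n₀ : ℕ), 0 < C ∧ 0 < δ ∧
    (∀ Λ : Finset (ℤ × ℤ), Λ.Nonempty → ∀ n, n₀ ≤ n → Real.exp (-δ * n) * (Λ.card * p n) ≤ N Λ n →
      0 < N Λ n ∧ |N Λ (n + 1) / (H981.mu ^ 2 * N Λ n) - 1| ≤ C * err Λ n ∧
      ∀ Λ' ⊆ Λ, |N Λ' (n + 1) / N Λ (n + 1) - N Λ' n / N Λ n| ≤ C * err Λ n) ∧
    (∀ Λ : Finset (ℤ × ℤ), Λ.Nonempty → ∀ n, n₀ ≤ n →
      Real.exp (-δ * n) * (Λ.card * p (n + 1)) ≤ N Λ (n + 1) →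
      N Λ (n + 1) ^ 2 ≤ N Λ n * N Λ (n + 2) * (1 + C / n)) ∧
    (∀ (Ω : Type) [MeasurableSpace Ω] (ν : Measure Ω) [IsProbabilityMeasure ν]
      (D : Ω → ℤ × ℤ → Prop), IsDomain D → ∀ n, n₀ ≤ n → Real.exp (-δ * n) ≤ Q ν D n →
      |Q ν D (n + 1) / Q ν D n - 1| ≤ C * errD ν D n ∧
      ∀ D' : Ω → ℤ × ℤ → Prop, IsDomain D' → (∀ ω x, D' ω x → D ω x) →
        |Q ν D' (n + 1) / Q ν D (n + 1) - Q ν D' n / Q ν D n| ≤ C * errD ν D n) := by
  obtain ⟨C1, δ1, N1, hC1, hδ1, hN1, h1⟩ := poly_main 0 0 0 le_rfl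
  obtain ⟨C2, δ2, N2, hC2, hδ2, hN2, h2⟩ := poly_cvx
  obtain ⟨N3, hN3⟩ := eventually_atTop.1
    (Q78.UR.log_sq_div.eventually_le_const (show (0 : ℝ) < 1 / (16 * C1 ^ 2) by positivity))
  obtain ⟨δ, hδ⟩ : ∃ δ, δ = min (min δ1 δ2) (1 / (16 * C1 ^ 2)) := ⟨_, rfl⟩
  have hδ0 : 0 < δ := by rw [hδ]; exact lt_min (lt_min hδ1 hδ2) (by positivity)
  have d1 : δ ≤ δ1 := by rw [hδ]; exact (min_le_left _ _).trans (min_le_left _ _)
  have d2 : δ ≤ δ2 := by rw [hδ]; exact (min_le_left _ _).trans (min_le_right _ _)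
  have d3 : δ ≤ 1 / (16 * C1 ^ 2) := by rw [hδ]; exact min_le_right _ _
  have hμ := H981.mu_pos
  obtain ⟨n₀, hn₀⟩ : ∃ n₀, n₀ = max (max N1 N2) (max N3 3) := ⟨_, rfl⟩
  have m1 : N1 ≤ n₀ := by rw [hn₀]; exact (le_max_left _ _).trans (le_max_left _ _)
  have m2 : N2 ≤ n₀ := by rw [hn₀]; exact (le_max_right _ _).trans (le_max_left _ _)
  have m3 : N3 ≤ n₀ := by rw [hn₀]; exact (le_max_left _ _).trans (le_max_right _ _)
  have m4 : 3 ≤ n₀ := by rw [hn₀]; exact (le_max_right _ _).trans (le_max_right _ _)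
  have hexp : ∀ (x δ' : ℝ) (n : ℕ), δ ≤ δ' → Real.exp (-δ * n) ≤ x → Real.exp (-δ' * n) ≤ x := by
    intro x δ' n h h'
    refine (Real.exp_le_exp.2 ?_).trans h'
    have hn0 : (0 : ℝ) ≤ n := Nat.cast_nonneg n
    nlinarith
  -- size of the error
  have herr : ∀ (q : ℝ) (n : ℕ), n₀ ≤ n → Real.exp (-δ * n) ≤ q → q ≤ 1 →
      1 / (n : ℝ) ≤ √((Real.log (1 / q) + Real.log n ^ 2) / n) ∧
      C1 * √((Real.log (1 / q) + Real.log n ^ 2) / n) ≤ 1 / 2 := by
    intro q n hn hq hq1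
    have hn3 : 3 ≤ n := m4.trans hn
    have hn0 : (0 : ℝ) < n := by exact_mod_cast (show 0 < n by omega)
    have hq0 : 0 < q := (Real.exp_pos _).trans_le hq
    have hl0 : 0 ≤ Real.log (1 / q) := Real.log_nonneg (by rw [le_div_iff₀ hq0]; linarith)
    have hl1 : Real.log (1 / q) ≤ δ * n := by
      rw [one_div, Real.log_inv]
      have := (Real.le_log_iff_exp_le hq0).2 hq
      linarith
    have hlog : 1 ≤ Real.log n := by
      rw [Real.le_log_iff_exp_le hn0]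
      have h3 : (3 : ℝ) ≤ n := by exact_mod_cast hn3
      have := Real.exp_one_lt_d9
      linarith
    constructor
    · refine Real.le_sqrt_of_sq_le ?_
      rw [div_pow, one_pow, div_le_div_iff₀ (by positivity) hn0]
      have h3 : (1 : ℝ) ≤ n := by linarith [show (3 : ℝ) ≤ n by exact_mod_cast hn3]
      have h4 : 1 ≤ Real.log (1 / q) + Real.log n ^ 2 := by nlinarith
      nlinarith [mul_le_mul_of_nonneg_right h4 (show (0 : ℝ) ≤ (n : ℝ) ^ 2 by positivity)]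
    · have h3 := hN3 n (m3.trans hn)
      have h4 : (Real.log (1 / q) + Real.log n ^ 2) / n ≤ (1 / (2 * C1)) ^ 2 := by
        rw [add_div]
        have h5 : Real.log (1 / q) / n ≤ δ := by
          rw [div_le_iff₀ hn0]
          exact hl1
        have h6 : (1 / (2 * C1)) ^ 2 = 4 * (1 / (16 * C1 ^ 2)) := by
          field_simp
          norm_num
        have h7 : (0 : ℝ) < 1 / (16 * C1 ^ 2) := by positivity
        linarith
      have h5 := Real.sqrt_le_sqrt h4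
      rw [Real.sqrt_sq (by positivity)] at h5
      calc C1 * √((Real.log (1 / q) + Real.log n ^ 2) / n) ≤ C1 * (1 / (2 * C1)) :=
            mul_le_mul_of_nonneg_left h5 hC1.le
        _ = 1 / 2 := by field_simp
  refine ⟨max (8 * (C1 + 2)) C2, δ, n₀, lt_max_of_lt_right hC2, hδ0, ?_, ?_, ?_⟩
  · intro Λ hne n hn hN
    have hn2 : 2 ≤ n := by omega
    have hn0 : (0 : ℝ) < n := by exact_mod_cast (show 0 < n by omega)
    have hcard : (0 : ℝ) < Λ.card := by exact_mod_cast hne.card_pos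
    have hp0 : 0 < p n := PP_pos hn2
    let _ : MeasurableSpace (ℤ × ℤ) := ⊤
    have hprob : IsProbabilityMeasure (uni Λ) := uni_prob hne
    have hD : ∀ x, MeasurableSet {ω : ℤ × ℤ | Dr Λ ω x} := fun _ => trivial
    have hpl : Pl (uni Λ) (Dr Λ) n = N Λ n / (Λ.card * p n) := Pl_eq hne (by omega)
    have hq : Real.exp (-δ * n) ≤ Pl (uni Λ) (Dr Λ) n := by
      rw [hpl, le_div_iff₀ (by positivity)]
      exact hN
    have hq1 : Pl (uni Λ) (Dr Λ) n ≤ 1 := Pl_le_one _ hD hn2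
    obtain ⟨e1, e2⟩ := herr _ n hn hq hq1
    have herrN : err Λ n = √((Real.log (1 / Pl (uni Λ) (Dr Λ) n) + Real.log n ^ 2) / n) := by
      unfold err
      rw [hpl, one_div_div]
    obtain ⟨g1, g2, g3, -⟩ := h1 (ℤ × ℤ) (uni Λ) (Dr Λ) hD n (m1.trans hn) (hexp _ _ _ d1 hq)
    rw [← herrN] at e1 e2 g2 g3
    have herr0 : 0 ≤ err Λ n := Real.sqrt_nonneg _
    have hNn : ∀ Λ' ⊆ Λ, ∀ k, 1 ≤ k → N Λ' k = Λ.card * Fp (uni Λ) (Dr Λ') k / (4 * k) :=
      fun Λ' h k hk => N_eq hne h hk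
    have hNn0 := hNn Λ (Finset.Subset.refl _) n (by omega)
    have hNn1 := hNn Λ (Finset.Subset.refl _) (n + 1) (by omega)
    have hNpos : 0 < N Λ n := by
      rw [hNn0]
      positivity
    have hCle : ∀ x : ℝ, x ≤ 8 * (C1 + 2) → x * err Λ n ≤ max (8 * (C1 + 2)) C2 * err Λ n :=
      fun x hx => mul_le_mul_of_nonneg_right (hx.trans (le_max_left _ _)) herr0
    refine ⟨hNpos, ?_, fun Λ' hsub => ?_⟩
    · have h3 : N Λ (n + 1) / (H981.mu ^ 2 * N Λ n) =
          Fp (uni Λ) (Dr Λ) (n + 1) / (H981.mu ^ 2 * Fp (uni Λ) (Dr Λ) n) * (n / (n + 1)) := by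
        rw [hNn0, hNn1]
        push_cast
        field_simp
      rw [h3]
      refine (ratio_fix (by omega) e1 g2 (by linarith)).trans (hCle _ (by linarith))
    · have hD' : ∀ x, MeasurableSet {ω : ℤ × ℤ | Dr Λ' ω x} := fun _ => trivial
      have g4 := g3 (Dr Λ') hD' (fun ω x h => hsub h) (fun _ j => j.elim0)
        (fun _ => Set.univ) (fun _ => trivial)
      rw [EE_univ, EE_univ] at g4
      have h3 : N Λ' (n + 1) / N Λ (n + 1) - N Λ' n / N Λ n =
          Fp (uni Λ) (Dr Λ') (n + 1) / Fp (uni Λ) (Dr Λ) (n + 1) -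
            Fp (uni Λ) (Dr Λ') n / Fp (uni Λ) (Dr Λ) n := by
        rw [hNn Λ' hsub n (by omega), hNn Λ' hsub (n + 1) (by omega), hNn0, hNn1]
        have hn1 : ((n + 1 : ℕ) : ℝ) ≠ 0 := by positivity
        rw [div_div_div_cancel_right₀ (by positivity), div_div_div_cancel_right₀ (by positivity),
          mul_div_mul_left _ _ hcard.ne', mul_div_mul_left _ _ hcard.ne']
      rw [h3]
      exact g4.trans (hCle _ (by linarith))
  · intro Λ hne n hn hN
    have hn2 : 2 ≤ n := by omega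
    have hn0 : (0 : ℝ) < n := by exact_mod_cast (show 0 < n by omega)
    have hcard : (0 : ℝ) < Λ.card := by exact_mod_cast hne.card_pos
    have hp0 : 0 < p (n + 1) := PP_pos (by omega)
    let _ : MeasurableSpace (ℤ × ℤ) := ⊤
    have hprob : IsProbabilityMeasure (uni Λ) := uni_prob hne
    have hD : ∀ x, MeasurableSet {ω : ℤ × ℤ | Dr Λ ω x} := fun _ => trivial
    have hq : Real.exp (-δ * n) ≤ Pl (uni Λ) (Dr Λ) (n + 1) := by
      rw [Pl_eq hne (by omega), le_div_iff₀ (by positivity)]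
      exact hN
    have g := h2 (ℤ × ℤ) (uni Λ) (Dr Λ) hD n (m2.trans hn) (hexp _ _ _ d2 hq)
    have hNn : ∀ k, 1 ≤ k → N Λ k = Λ.card * Fp (uni Λ) (Dr Λ) k / (4 * k) :=
      fun k hk => N_eq hne (Finset.Subset.refl _) hk
    have hf0 := Fp_nonneg (uni Λ) (Dr Λ) n
    have hf2 := Fp_nonneg (uni Λ) (Dr Λ) (n + 2)
    rw [hNn n (by omega), hNn (n + 1) (by omega), hNn (n + 2) (by omega)]
    have hX : 0 ≤ Fp (uni Λ) (Dr Λ) n * Fp (uni Λ) (Dr Λ) (n + 2) * (1 + C2 / n) := by positivity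
    have hC2le : (1 : ℝ) + C2 / n ≤ 1 + max (8 * (C1 + 2)) C2 / n := by
      have := div_le_div_of_nonneg_right (le_max_right (8 * (C1 + 2)) C2) hn0.le
      linarith
    calc (Λ.card * Fp (uni Λ) (Dr Λ) (n + 1) / (4 * ((n + 1 : ℕ) : ℝ))) ^ 2 =
          (Λ.card : ℝ) ^ 2 / (16 * ((n : ℝ) + 1) ^ 2) * Fp (uni Λ) (Dr Λ) (n + 1) ^ 2 := by
          push_cast
          field_simp
          ring
      _ ≤ (Λ.card : ℝ) ^ 2 / (16 * ((n : ℝ) * (n + 2))) *
          (Fp (uni Λ) (Dr Λ) n * Fp (uni Λ) (Dr Λ) (n + 2) * (1 + C2 / n)) := by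
          refine mul_le_mul ?_ g (sq_nonneg _) (by positivity)
          refine div_le_div_of_nonneg_left (by positivity) (by positivity) ?_
          nlinarith
      _ ≤ (Λ.card : ℝ) ^ 2 / (16 * ((n : ℝ) * (n + 2))) *
          (Fp (uni Λ) (Dr Λ) n * Fp (uni Λ) (Dr Λ) (n + 2) * (1 + max (8 * (C1 + 2)) C2 / n)) := by
          refine mul_le_mul_of_nonneg_left ?_ (by positivity)
          exact mul_le_mul_of_nonneg_left hC2le (mul_nonneg hf0 hf2)
      _ = _ := by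
          push_cast
          field_simp
          ring
  · intro Ω _ ν _ D hD n hn hQ
    have hn2 : 2 ≤ n := by omega
    have hn0 : (0 : ℝ) < n := by exact_mod_cast (show 0 < n by omega)
    have hp0 : 0 < p n := PP_pos hn2
    have hp1 : 0 < p (n + 1) := PP_pos (by omega)
    rw [Q_eq ν D (by omega)] at hQ
    have hq1 : Pl ν D n ≤ 1 := Pl_le_one _ hD hn2
    obtain ⟨e1, e2⟩ := herr _ n hn hQ hq1
    have herrN : errD ν D n = √((Real.log (1 / Pl ν D n) + Real.log n ^ 2) / n) := by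
      unfold errD
      rw [Q_eq ν D (by omega)]
    obtain ⟨g1, g2, g3, -⟩ := h1 Ω ν D hD n (m1.trans hn) (hexp _ _ _ d1 hQ)
    have hall : Real.exp (-δ1 * n) ≤ Pl ν (fun _ _ => True) n := by
      rw [Pl_all ν hn2, Real.exp_le_one_iff]
      nlinarith
    obtain ⟨f1, f2, -, -⟩ := h1 Ω ν (fun _ _ => True) (fun _ => MeasurableSet.const _) n
      (m1.trans hn) hall
    rw [Pl_all ν hn2, Fp_all ν (by omega), Fp_all ν (by omega)] at f2
    have hl0 : 0 ≤ Real.log (1 / Pl ν D n) := by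
      have hq0 : 0 < Pl ν D n := (Real.exp_pos _).trans_le hQ
      exact Real.log_nonneg (by rw [le_div_iff₀ hq0]; linarith)
    have f3 : √((Real.log (1 / 1) + Real.log n ^ 2) / n) ≤
        √((Real.log (1 / Pl ν D n) + Real.log n ^ 2) / n) := by
      refine Real.sqrt_le_sqrt (div_le_div_of_nonneg_right ?_ hn0.le)
      rw [div_one, Real.log_one]
      linarith
    have f4 := f2.trans (mul_le_mul_of_nonneg_left f3 hC1.le)
    rw [← herrN] at e1 e2 g2 g3 f4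
    have herr0 : 0 ≤ errD ν D n := Real.sqrt_nonneg _
    have hCle : ∀ x : ℝ, x ≤ 8 * (C1 + 2) → x * errD ν D n ≤ max (8 * (C1 + 2)) C2 * errD ν D n :=
      fun x hx => mul_le_mul_of_nonneg_right (hx.trans (le_max_left _ _)) herr0
    have hFD : ∀ k, 2 ≤ k → Fp ν D k = Q ν D k * (4 * k * H981.PP k) := fun k hk => Fp_eq ν D hk
    refine ⟨?_, fun D' hD' hsub => ?_⟩
    · have h3 := Q78.Z3.quot_two e2 g2 f4
      have hPP1 : 0 < H981.PP (n + 1) := hp1
      have hPP0 : 0 < H981.PP n := hp0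
      have h4 : Fp ν D (n + 1) / (H981.mu ^ 2 * Fp ν D n) /
          (4 * ((n + 1 : ℕ) : ℝ) * H981.PP (n + 1) / (H981.mu ^ 2 * (4 * n * H981.PP n))) =
          Q ν D (n + 1) / Q ν D n := by
        have hQ0 : Q ν D n ≠ 0 := by
          rw [Q_eq ν D (by omega)]
          exact ((Real.exp_pos _).trans_le hQ).ne'
        rw [hFD n hn2, hFD (n + 1) (by omega)]
        push_cast
        field_simp
      rw [h4] at h3
      refine h3.trans ?_
      rw [← mul_assoc]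
      exact hCle _ (by linarith)
    · have g4 := g3 D' hD' (fun ω x h => hsub ω x h) (fun _ j => j.elim0)
        (fun _ => Set.univ) (fun w => by
          by_cases hw : w = []
          · simp [Ev, hw]
          · simp [Ev, hw])
      rw [EE_univ, EE_univ] at g4
      have hdiv : ∀ k, 2 ≤ k → Q ν D' k / Q ν D k = Fp ν D' k / Fp ν D k := by
        intro k hk
        have h5 := PP_pos hk
        have h6 : (0 : ℝ) < k := by exact_mod_cast (show 0 < k by omega)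
        rw [hFD k hk, Fp_eq ν D' hk]
        rw [show p k = H981.PP k from rfl, mul_div_mul_right _ _ (by positivity)]
      rw [hdiv n hn2, hdiv (n + 1) (by omega)]
      exact g4.trans (hCle _ (by linarith))

/-- **Main result.** -/
theorem result : ∃ μ : ℝ, 0 < μ ∧
    Tendsto (fun n : ℕ => (c n : ℝ) ^ ((1 : ℝ) / (n : ℝ))) atTop (𝓝 μ) ∧
    ∃ (C δ : ℝ) (n₀ : ℕ), 0 < C ∧ 0 < δ ∧
    (∀ Λ : Finset (ℤ × ℤ), Λ.Nonempty → ∀ n, n₀ ≤ n → Real.exp (-δ * n) * (Λ.card * p n) ≤ N Λ n →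
      0 < N Λ n ∧ |N Λ (n + 1) / (μ ^ 2 * N Λ n) - 1| ≤ C * err Λ n ∧
      ∀ Λ' ⊆ Λ, |N Λ' (n + 1) / N Λ (n + 1) - N Λ' n / N Λ n| ≤ C * err Λ n) ∧
    (∀ Λ : Finset (ℤ × ℤ), Λ.Nonempty → ∀ n, n₀ ≤ n →
      Real.exp (-δ * n) * (Λ.card * p (n + 1)) ≤ N Λ (n + 1) →
      N Λ (n + 1) ^ 2 ≤ N Λ n * N Λ (n + 2) * (1 + C / n)) ∧
    (∀ (Ω : Type) [MeasurableSpace Ω] (ν : Measure Ω) [IsProbabilityMeasure ν]
      (D : Ω → ℤ × ℤ → Prop), IsDomain D → ∀ n, n₀ ≤ n → Real.exp (-δ * n) ≤ Q ν D n →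
      |Q ν D (n + 1) / Q ν D n - 1| ≤ C * errD ν D n ∧
      ∀ D' : Ω → ℤ × ℤ → Prop, IsDomain D' → (∀ ω x, D' ω x → D ω x) →
        |Q ν D' (n + 1) / Q ν D (n + 1) - Q ν D' n / Q ν D n| ≤ C * errD ν D n) := by
  refine ⟨H981.mu, H981.mu_pos, ?_, main⟩
  simp only [c_eq]
  exact H981.tendsto_root

end Pool.Agent.Results.MP_376faf_co.PolygonsInRegions
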