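import Pool.Agent.Q78.UW.PolyEx

set_option autoImplicit false

/-!
# Self-avoiding polygons in a random domain: all perimeters from a sparse set of perimeters
-/

namespace Pool.Agent.Results.MP_376faf_co.SparsePerimeters

open MeasureTheory Filter Topology

/-- the number of `n`-step self-avoiding walks on `ℤ²` started at the origin -/
noncomputable def c (n : ℕ) : ℕ :=
  Nat.card {f : Fin (n + 1) → ℤ × ℤ // f 0 = 0 ∧ Function.Injective f ∧
    ∀ i : Fin n, |(f i.succ).1 - (f i.castSucc).1| + |(f i.succ).2 - (f i.castSucc).2| = 1}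

/-- a closed nearest-neighbour loop on `ℤ²` with `m` steps that visits no vertex twice (rooted and
oriented, anywhere in the plane) -/
def IsPoly (m : ℕ) (f : ZMod m → ℤ × ℤ) : Prop :=
  Function.Injective f ∧ ∀ i : ZMod m, |(f (i + 1)).1 - (f i).1| + |(f (i + 1)).2 - (f i).2| = 1

variable {Ω : Type} [MeasurableSpace Ω]

/-- the mean number of self-avoiding polygons of perimeter `2n` through the origin which lie in a
random domain with law `ν` (each of them gives two loops rooted at the origin) -/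
noncomputable def F (ν : Measure Ω) (D : Ω → ℤ × ℤ → Prop) (n : ℕ) : ℝ :=
  (∫ ω, (Nat.card {f : ZMod (2 * n) → ℤ × ℤ //
    (f 0 = 0 ∧ IsPoly (2 * n) f) ∧ ∀ i, D ω (f i)} : ℝ) ∂ν) / 2

/-- random domains -/
def IsDomain (D : Ω → ℤ × ℤ → Prop) : Prop := ∀ x, MeasurableSet {ω | D ω x}

/-- the normalised mean number of polygons -/
noncomputable def Y (μ : ℝ) (ν : Measure Ω) (D : Ω → ℤ × ℤ → Prop) (n : ℕ) : ℝ :=
  F ν D n / μ ^ (2 * n)

/-- error functions, such as `1`, `1 + log n`, `n ^ a` (`0 < a < 1`) -/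
def IsErr (E : ℕ → ℝ) : Prop :=
  (∀ n, 1 ≤ E n) ∧ Monotone E ∧ (∀ n, 1 ≤ n → E (2 * n) ≤ 2 * E n) ∧
    Tendsto (fun n : ℕ => E n / n) atTop (𝓝 0)

/-- logarithms of normalisations, such as `β log n + a` -/
def IsSlow (ψ : ℕ → ℝ) : Prop :=
  ∃ B : ℝ, ∀ m n : ℕ, 1 ≤ m → m ≤ n → |ψ n - ψ m| ≤ B * (((n : ℝ) - m) / m)

/-- `S` meets `[n, n + δ √(n E n)]` for all large `n` -/
def Meets (S : Set ℕ) (δ : ℝ) (E : ℕ → ℝ) : Prop :=
  ∀ᶠ n : ℕ in atTop, ∃ k ∈ S, n ≤ k ∧ (k : ℝ) ≤ n + δ * √(n * E n)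

open TH966.AK Q78.UW Q78.UW.Po Pool.Agent.H924P

lemma c_eq (n : ℕ) : (c n : ℝ) = H981.cr' n := by
  rw [H981.cr'_eq]
  unfold c H981.C H981.IsSAW
  congr 1
  apply Nat.card_congr
  apply Equiv.subtypeEquivRight
  intro f
  constructor
  · rintro ⟨h0, h1, h2⟩
    exact ⟨h0, h2, h1⟩
  · rintro ⟨h0, h2, h1⟩
    exact ⟨h0, h1, h2⟩

lemma F_eq (ν : Measure Ω) (D : Ω → ℤ × ℤ → Prop) {n : ℕ} (hn : 1 ≤ n) :
    F ν D n = Fp ν D n / 2 := by
  unfold F Fp Q78.UR.FF
  congr 1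
  congr 1
  funext ω
  rw [← root_card' (2 * n) (2 * n - 1) (by omega) (D ω)]
  rfl

lemma Y_eq (ν : Measure Ω) (D : Ω → ℤ × ℤ → Prop) {n : ℕ} (hn : 1 ≤ n) :
    Y H981.mu ν D n = Yp ν D n / 2 := by
  unfold Y Yp
  rw [F_eq ν D hn]
  ring

theorem slow_add {ψ : ℕ → ℝ} (h : IsSlow ψ) (a : ℝ) : Q78.Z3.Slow (fun n => ψ n + a) := by
  obtain ⟨B, hB⟩ := h
  refine ⟨B, fun m n hm hmn => ?_⟩
  have := hB m n hm hmn
  simpa only [add_sub_add_right_eq_sub] using this

/-- **Main result.** -/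
theorem result : ((∀ β a : ℝ, IsSlow (fun n => β * Real.log n + a)) ∧ IsErr (fun _ => 1) ∧
    IsErr (fun n => 1 + Real.log n)) ∧
    ∃ μ C : ℝ, 0 < μ ∧ 0 < C ∧
    Tendsto (fun n : ℕ => (c n : ℝ) ^ ((1 : ℝ) / n)) atTop (𝓝 μ) ∧
    ∀ (Ω : Type) [MeasurableSpace Ω] (ν : Measure Ω) [IsProbabilityMeasure ν]
      (D : Ω → ℤ × ℤ → Prop), IsDomain D → ∀ S : Set ℕ,
      -- bounds
      (∀ (E ψ : ℕ → ℝ) (τ δ : ℝ), IsErr E → IsSlow ψ → 0 < τ → 0 < δ → Meets S δ E →
        (∀ᶠ n in atTop, n ∈ S → 0 < Y μ ν D n ∧ |Real.log (Y μ ν D n) - ψ n| ≤ τ * E n) →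
        ∀ᶠ n in atTop, 0 < Y μ ν D n ∧
          |Real.log (Y μ ν D n) - ψ n| ≤ C * (τ + δ ^ 2) * E n) ∧
      -- ratios and conditional laws
      (∀ (E : ℕ → ℝ) (τ δ : ℝ), IsErr E → 0 < τ → 0 < δ → Meets S δ E →
        (∀ᶠ n in atTop, n ∈ S → 0 < Y μ ν D n ∧ |Real.log (Y μ ν D n)| ≤ τ * E n) →
        ∀ᶠ n : ℕ in atTop,
          |F ν D (n + 1) / (μ ^ 2 * F ν D n) - 1| ≤ C * √((1 + τ + δ ^ 2) * E n / n) ∧
          ∀ D' : Ω → ℤ × ℤ → Prop, IsDomain D' → (∀ ω x, D' ω x → D ω x) →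
            |F ν D' (n + 1) / F ν D (n + 1) - F ν D' n / F ν D n| ≤
              C * √((1 + τ + δ ^ 2) * E n / n)) ∧
      -- the asymptotic form
      (∀ ψ : ℕ → ℝ, IsSlow ψ → (∀ δ : ℝ, 0 < δ → Meets S δ (fun _ => 1)) →
        Tendsto (fun n => Y μ ν D n / Real.exp (ψ n)) (atTop ⊓ 𝓟 S) (𝓝 1) →
        Tendsto (fun n => Y μ ν D n / Real.exp (ψ n)) atTop (𝓝 1)) ∧
      -- the exponent
      (∀ β : ℝ, (∀ δ : ℝ, 0 < δ → Meets S δ (fun n => Real.log n)) →
        (∀ᶠ n in atTop, n ∈ S → 0 < Y μ ν D n) →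
        Tendsto (fun n : ℕ => Real.log (Y μ ν D n) / Real.log n) (atTop ⊓ 𝓟 S) (𝓝 β) →
        Tendsto (fun n : ℕ => Real.log (Y μ ν D n) / Real.log n) atTop (𝓝 β)) := by
  refine ⟨⟨fun β a => Q78.Z3.slow_log β a,
    ⟨Q294.Sp1.err_one.one, Q294.Sp1.err_one.mono, Q294.Sp1.err_one.two, Q294.Sp1.err_one.lim⟩,
    ⟨Q294.Sp1.err_log.one, Q294.Sp1.err_log.mono, Q294.Sp1.err_log.two, Q294.Sp1.err_log.lim⟩⟩, ?_⟩
  obtain ⟨C, hC, h⟩ := poly_ex 0 0 le_rfl
  obtain ⟨K, G⟩ := Q78.UR.Sq.growth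
  refine ⟨H981.mu, 3 * C, H981.mu_pos, by positivity, ?_, ?_⟩
  · simp only [c_eq]
    exact H981.tendsto_root
  intro Ω _ ν _ D hD S
  have hErr : ∀ E : ℕ → ℝ, IsErr E → Q294.Sp1.Err E := fun E h => ⟨h.1, h.2.1, h.2.2.1, h.2.2.2⟩
  obtain ⟨h1, h2, h3, h4, -⟩ := h Ω ν D hD S
  have hlog : ∀ n, 1 ≤ n → 0 < Yp ν D n →
      Real.log (Y H981.mu ν D n) = Real.log (Yp ν D n) - Real.log 2 := by
    intro n hn hp
    rw [Y_eq ν D hn, Real.log_div hp.ne' (by norm_num)]
  have hpos : ∀ n, 1 ≤ n → (0 < Y H981.mu ν D n ↔ 0 < Yp ν D n) := by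
    intro n hn
    rw [Y_eq ν D hn]
    exact div_pos_iff_of_pos_right (by norm_num)
  refine ⟨?_, ?_, ?_, ?_⟩
  · intro E ψ τ δ hE hψ hτ hδ hS hk
    have := h1 E (fun n => ψ n + Real.log 2) τ δ (hErr E hE) (slow_add hψ _) hτ hδ hS (by
      filter_upwards [hk, eventually_ge_atTop 1] with n hn hn1 hnS
      obtain ⟨g1, g2⟩ := hn hnS
      have g3 := (hpos n hn1).1 g1
      rw [hlog n hn1 g3] at g2
      refine ⟨g3, ?_⟩
      rw [show Real.log (Yp ν D n) - (ψ n + Real.log 2) =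
        Real.log (Yp ν D n) - Real.log 2 - ψ n by ring]
      exact g2)
    filter_upwards [this, eventually_ge_atTop 1] with n hn hn1
    obtain ⟨g1, g2⟩ := hn
    refine ⟨(hpos n hn1).2 g1, ?_⟩
    rw [hlog n hn1 g1]
    rw [show Real.log (Yp ν D n) - (ψ n + Real.log 2) =
        Real.log (Yp ν D n) - Real.log 2 - ψ n by ring] at g2
    refine g2.trans (mul_le_mul_of_nonneg_right ?_ (by linarith [hE.1 n]))
    have : 0 < τ + δ ^ 2 := by positivity
    nlinarith
  · intro E τ δ hE hτ hδ hS hk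
    have := h2 E (τ + 1) δ (hErr E hE) (by linarith) hδ hS (by
      filter_upwards [hk, eventually_ge_atTop 1] with n hn hn1 hnS
      obtain ⟨g1, g2⟩ := hn hnS
      have g3 := (hpos n hn1).1 g1
      rw [hlog n hn1 g3] at g2
      refine ⟨g3, ?_⟩
      have g4 : 0 < Real.log 2 := Real.log_pos (by norm_num)
      have g5 : Real.log 2 ≤ 1 := by linarith [Real.log_two_lt_d9]
      obtain ⟨g6, g7⟩ := abs_le.1 g2
      have g8 := hE.1 n
      rw [abs_le]
      constructor <;> nlinarith)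
    filter_upwards [this, eventually_ge_atTop 1] with n hn hn1
    obtain ⟨g1, g2⟩ := hn
    have hE1 := hE.1 n
    have hle : C * √((1 + (τ + 1) + δ ^ 2) * E n / n) ≤
        3 * C * √((1 + τ + δ ^ 2) * E n / n) := by
      have e1 : √((1 + (τ + 1) + δ ^ 2) * E n / n) ≤ √(9 * ((1 + τ + δ ^ 2) * E n / n)) := by
        refine Real.sqrt_le_sqrt ?_
        rw [← mul_div_assoc]
        refine div_le_div_of_nonneg_right ?_ (Nat.cast_nonneg _)
        have e2 : 0 < 1 + τ + δ ^ 2 := by positivity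
        nlinarith
      rw [Real.sqrt_mul (by norm_num), show (9 : ℝ) = 3 ^ 2 by norm_num,
        Real.sqrt_sq (by norm_num)] at e1
      calc C * √((1 + (τ + 1) + δ ^ 2) * E n / n) ≤ C * (3 * √((1 + τ + δ ^ 2) * E n / n)) :=
            mul_le_mul_of_nonneg_left e1 hC.le
        _ = _ := by ring
    have hq : ∀ (D' : Ω → ℤ × ℤ → Prop) (m : ℕ), 1 ≤ m →
        F ν D' m / F ν D m = Fp ν D' m / Fp ν D m := by
      intro D' m hm
      rw [F_eq ν D' hm, F_eq ν D hm, div_div_div_cancel_right₀ (by norm_num)]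
    refine ⟨?_, fun D' hD' hsub => ?_⟩
    · have e : F ν D (n + 1) / (H981.mu ^ 2 * F ν D n) =
          Fp ν D (n + 1) / (H981.mu ^ 2 * Fp ν D n) := by
        rw [F_eq ν D (by omega), F_eq ν D hn1, mul_div_assoc',
          div_div_div_cancel_right₀ (by norm_num)]
      rw [e]
      exact g1.trans hle
    · rw [hq D' (n + 1) (by omega), hq D' n hn1]
      exact (g2 D' hD' hsub).trans hle
  · intro ψ hψ hS hk
    have e : ∀ᶠ n : ℕ in atTop, Yp ν D n / Real.exp (ψ n + Real.log 2) =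
        Y H981.mu ν D n / Real.exp (ψ n) := by
      filter_upwards [eventually_ge_atTop 1] with n hn
      rw [Y_eq ν D hn, Real.exp_add, Real.exp_log (by norm_num)]
      field_simp
    exact (h3 (fun n => ψ n + Real.log 2) (slow_add hψ _) hS (hk.congr'
      ((e.filter_mono inf_le_left).mono fun n hn => hn.symm))).congr' e
  · intro β hS hp hk
    have tlog : Tendsto (fun n : ℕ => Real.log (n : ℝ)) atTop atTop :=
      Real.tendsto_log_atTop.comp tendsto_natCast_atTop_atTop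
    have t0 : Tendsto (fun n : ℕ => Real.log 2 / Real.log (n : ℝ)) atTop (𝓝 0) :=
      tlog.const_div_atTop _
    have hp' : ∀ᶠ n in atTop, n ∈ S → 0 < Yp ν D n := by
      filter_upwards [hp, eventually_ge_atTop 1] with n hn hn1 hnS
      exact (hpos n hn1).1 (hn hnS)
    have e : ∀ᶠ n : ℕ in atTop, 0 < Yp ν D n → Real.log (Yp ν D n) / Real.log n =
        Real.log (Y H981.mu ν D n) / Real.log n + Real.log 2 / Real.log n := by
      filter_upwards [eventually_ge_atTop 1] with n hn hn2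
      rw [hlog n hn hn2]
      ring
    have hk2 : Tendsto (fun n : ℕ => Real.log (Yp ν D n) / Real.log n) (atTop ⊓ 𝓟 S) (𝓝 β) := by
      have g1 := hk.add (t0.mono_left (inf_le_left : atTop ⊓ 𝓟 S ≤ atTop))
      rw [add_zero] at g1
      refine g1.congr' ?_
      have g2 : ∀ᶠ n in atTop ⊓ 𝓟 S, 0 < Yp ν D n := by
        rw [eventually_inf_principal]
        exact hp'
      filter_upwards [g2, e.filter_mono inf_le_left] with n hn1 hn2
      exact (hn2 hn1).symm
    have g3 := h4 β hS hp' hk2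
    -- positivity along all perimeters
    have hposall : ∀ᶠ n in atTop, 0 < Yp ν D n := by
      have g4 := h1 (fun n => 1 + Real.log n) (fun n => β * Real.log n + 0) 1 1 Q294.Sp1.err_log
        (Q78.Z3.slow_log β 0) one_pos one_pos (by
          filter_upwards [hS 1 one_pos] with n hn
          obtain ⟨k, h1, h2, h3⟩ := hn
          refine ⟨k, h1, h2, h3.trans ?_⟩
          have h4 : √((n : ℝ) * Real.log n) ≤ √(n * (1 + Real.log n)) :=
            Real.sqrt_le_sqrt (mul_le_mul_of_nonneg_left (by linarith) (by positivity))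
          linarith) (by
          have h4 := Metric.tendsto_nhds.1 hk2 1 one_pos
          rw [eventually_inf_principal] at h4
          filter_upwards [h4, hp', eventually_gt_atTop 1] with n h4 hp h5 hnS
          have h51 : (1 : ℝ) < n := by exact_mod_cast h5
          have h52 : 0 < Real.log (n : ℝ) := Real.log_pos h51
          have h7 := h4 hnS
          rw [Real.dist_eq] at h7
          have h8 : Real.log (Yp ν D n) - (β * Real.log n + 0) =
              (Real.log (Yp ν D n) / Real.log n - β) * Real.log n := by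
            field_simp
            ring
          refine ⟨hp hnS, ?_⟩
          rw [h8, abs_mul, abs_of_pos h52]
          nlinarith)
      filter_upwards [g4] with n hn using hn.1
    have g5 := g3.sub t0
    rw [sub_zero] at g5
    refine g5.congr' ?_
    filter_upwards [hposall, e] with n hn1 hn2
    rw [hn2 hn1]
    ring

end Pool.Agent.Results.MP_376faf_co.SparsePerimeters
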